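import Pool.Agent.H90.CF.M2a

set_option autoImplicit false

/-!
# MP_268cdb_al, module M2: a grammar and an automaton give a tree system
-/

namespace Pool.Agent.H5.CF

section rd

variable {T : Type} {K : ℕ} {A : Aut T K}

lemma Rd.append {p q r : A.Q} {u w : List T} {m n : Fin K → ℕ} (h : Rd A p u q m)
    (h' : Rd A q w r n) : Rd A p (u ++ w) r (m + n) := by
  induction h with
  | nil p => simpa using h'
  | cons p x q' u' r' n' hs _ ih =>
    have := Rd.cons p x q' _ r _ hs (ih h')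
    rw [add_assoc]
    exact this

lemma Rd.split (u : List T) : ∀ (p r : A.Q) (w : List T) (m : Fin K → ℕ), Rd A p (u ++ w) r m →
    ∃ (q : A.Q) (m₁ m₂ : Fin K → ℕ), Rd A p u q m₁ ∧ Rd A q w r m₂ ∧ m = m₁ + m₂ := by
  induction u with
  | nil => intro p r w m h; exact ⟨p, 0, m, Rd.nil p, h, by simp⟩
  | cons x u ih =>
    intro p r w m h
    rw [List.cons_append] at h
    cases h with
    | cons _ _ q' _ _ n hs h' =>
      obtain ⟨q, m₁, m₂, h1, h2, rfl⟩ := ih _ _ _ _ h'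
      exact ⟨q, _, m₂, Rd.cons p x q' _ q _ hs h1, h2, by rw [add_assoc]⟩

end rd

section sys

variable {T : Type} (g : ContextFreeGrammar T) {K : ℕ} (A : Aut T K)

/-- the finitely many strings of symbols which occur -/
def items : Set (List (Symbol T g.NT)) :=
  {β | β <:+ [Symbol.nonterminal g.initial]} ∪
    ((⋃ r ∈ g.rules, {β | β <:+ r.output}) ∪ (⋃ r ∈ g.rules, (fun s => [s]) '' {s | s ∈ r.output}))

lemma items_finite : (items g).Finite := by
  have hf : ∀ l : List (Symbol T g.NT), {β | β <:+ l}.Finite := by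
    intro l
    have : {β | β <:+ l} = {β | β ∈ l.tails} := by
      ext β; simp
    rw [this]
    exact List.finite_toSet _
  refine (hf _).union ((Set.Finite.biUnion g.rules.finite_toSet fun r _ => hf _).union
    (Set.Finite.biUnion g.rules.finite_toSet fun r _ => Set.Finite.image _ (List.finite_toSet _)))

lemma items_tail {s : Symbol T g.NT} {β : List (Symbol T g.NT)} (h : s :: β ∈ items g) :
    β ∈ items g := by
  rcases h with h | h | h
  · exact Or.inl ((List.suffix_cons s β).trans h)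
  · simp only [Set.mem_iUnion] at h
    obtain ⟨r, hr, h⟩ := h
    refine Or.inr (Or.inl ?_)
    simp only [Set.mem_iUnion]
    exact ⟨r, hr, (List.suffix_cons s β).trans h⟩
  · simp only [Set.mem_iUnion] at h
    obtain ⟨r, hr, t, ht, h⟩ := h
    have : β = [] := by
      have := congrArg List.length h
      simp at this
      simpa using this
    subst this
    exact Or.inl (List.nil_suffix)

lemma items_head {x : T} {β : List (Symbol T g.NT)} (h : Symbol.terminal x :: β ∈ items g) :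
    [Symbol.terminal x] ∈ items g := by
  rcases h with h | h | h
  · exfalso
    have h1 : Symbol.terminal x ∈ [Symbol.nonterminal g.initial] := h.subset (List.mem_cons_self)
    simp at h1
  · simp only [Set.mem_iUnion] at h
    obtain ⟨r, hr, h⟩ := h
    refine Or.inr (Or.inr ?_)
    simp only [Set.mem_iUnion]
    exact ⟨r, hr, _, h.subset (List.mem_cons_self), rfl⟩
  · simp only [Set.mem_iUnion] at h
    obtain ⟨r, hr, t, ht, h⟩ := h
    refine Or.inr (Or.inr ?_)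
    simp only [Set.mem_iUnion]
    refine ⟨r, hr, t, ht, ?_⟩
    simp only [List.cons.injEq] at h
    simp [h.1]

lemma items_rule {r : ContextFreeRule T g.NT} (hr : r ∈ g.rules) : r.output ∈ items g := by
  refine Or.inr (Or.inl ?_)
  simp only [Set.mem_iUnion]
  exact ⟨r, hr, List.suffix_refl _⟩

lemma items_init : [Symbol.nonterminal g.initial] ∈ items g := Or.inl (List.suffix_refl _)

/-- weight of a leaf -/
def wtS : (A.Q × items g × A.Q) → Fin K → ℕ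
  | (p, ⟨[Symbol.terminal x], _⟩, q) => A.out p x q
  | _ => 0

/-- leaves -/
def leafS : Set (A.Q × items g × A.Q) :=
  {ℓ | ((ℓ.2.1 : List (Symbol T g.NT)) = [] ∧ ℓ.1 = ℓ.2.2) ∨
    ∃ x, (ℓ.2.1 : List (Symbol T g.NT)) = [Symbol.terminal x] ∧ A.step ℓ.1 x ℓ.2.2}

/-- rules -/
def ruleS (ℓ ℓ₁ ℓ₂ : A.Q × items g × A.Q) : Prop :=
  ℓ₁.1 = ℓ.1 ∧ ℓ₂.1 = ℓ₁.2.2 ∧ ℓ₂.2.2 = ℓ.2.2 ∧
    ∃ s : Symbol T g.NT, (ℓ.2.1 : List (Symbol T g.NT)) = s :: ℓ₂.2.1 ∧
      ((∃ x, s = Symbol.terminal x ∧ (ℓ₁.2.1 : List (Symbol T g.NT)) = [Symbol.terminal x]) ∨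
       (∃ r ∈ g.rules, s = Symbol.nonterminal r.input ∧
          (ℓ₁.2.1 : List (Symbol T g.NT)) = r.output))

lemma wtS_nil {p q : A.Q} {h : [] ∈ items g} : wtS g A (p, ⟨[], h⟩, q) = 0 := rfl

lemma wtS_one {p q : A.Q} {x : T} {h : [Symbol.terminal x] ∈ items g} :
    wtS g A (p, ⟨[Symbol.terminal x], h⟩, q) = A.out p x q := rfl

/-- the tree system -/
def sysS : Sys K where
  Λ := A.Q × items g × A.Q
  fin := by
    have := A.fin
    have : Finite (items g) := (items_finite g).to_subtype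
    infer_instance
  leaf := leafS g A
  R := ruleS g A
  wt := wtS g A
  lo := fun ℓ => A.blk ℓ.1
  hi := fun ℓ => A.blk ℓ.2.2
  leaf_le := by
    rintro ⟨p, β, q⟩ (⟨_, h⟩ | ⟨x, _, h⟩)
    · simp only at h
      simp [h]
    · exact A.mono _ _ _ h
  wt_supp := by
    rintro ⟨p, ⟨β, hβ⟩, q⟩ (⟨h1, h2⟩ | ⟨x, h1, h2⟩) i hi
    · simp only at h1
      subst h1
      exact absurd (congrFun (wtS_nil g A) i) hi
    · simp only at h1 h2
      subst h1
      rw [wtS_one] at hi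
      exact A.supp _ _ _ h2 i hi
  R_lo := by
    rintro ⟨p, β, q⟩ ⟨p₁, β₁, q₁⟩ ⟨p₂, β₂, q₂⟩ ⟨h1, h2, h3, _⟩
    simp only at h1 ⊢
    rw [h1]
  R_mid := by
    rintro ⟨p, β, q⟩ ⟨p₁, β₁, q₁⟩ ⟨p₂, β₂, q₂⟩ ⟨h1, h2, h3, _⟩
    simp only at h2 ⊢
    rw [h2]
  R_hi := by
    rintro ⟨p, β, q⟩ ⟨p₁, β₁, q₁⟩ ⟨p₂, β₂, q₂⟩ ⟨h1, h2, h3, _⟩
    simp only at h3 ⊢
    rw [h3]

lemma sysS_sound {ℓ : (sysS g A).Λ} {m : Fin K → ℕ} (h : Tr (sysS g A) ℓ m) :
    ∃ w, Yd g (ℓ.2.1 : List (Symbol T g.NT)) w ∧ Rd A ℓ.1 w ℓ.2.2 m := by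
  induction h with
  | leaf ℓ hl =>
    obtain ⟨p, ⟨β, hβ⟩, q⟩ := ℓ
    rcases hl with ⟨h1, h2⟩ | ⟨x, h1, h2⟩
    · simp only at h1 h2
      subst h1 h2
      exact ⟨[], Yd.nil, Rd.nil p⟩
    · simp only at h1 h2
      subst h1
      refine ⟨[x], Yd.term x _ _ Yd.nil, ?_⟩
      have := Rd.cons p x q [] q 0 h2 (Rd.nil q)
      rw [add_zero] at this
      exact this
  | node ℓ ℓ₁ ℓ₂ m₁ m₂ hR _ _ ih1 ih2 =>
    obtain ⟨p, β, q⟩ := ℓ
    obtain ⟨p₁, β₁, q₁⟩ := ℓ₁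
    obtain ⟨p₂, β₂, q₂⟩ := ℓ₂
    obtain ⟨h1, h2, h3, s, h4, h5⟩ := hR
    obtain ⟨w₁, hy1, hr1⟩ := ih1
    obtain ⟨w₂, hy2, hr2⟩ := ih2
    simp only at h1 h2 h3 h4 h5 hy1 hr1 hy2 hr2
    subst h1 h2 h3
    refine ⟨w₁ ++ w₂, ?_, hr1.append hr2⟩
    show Yd g (β : List (Symbol T g.NT)) _
    rw [h4]
    rcases h5 with ⟨x, rfl, h6⟩ | ⟨r, hr, rfl, h6⟩
    · rw [h6] at hy1
      exact hy1.append hy2
    · rw [h6] at hy1
      exact Yd.nonterm r _ _ _ hr hy1 hy2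

lemma sysS_complete {β : List (Symbol T g.NT)} {w : List T} (h : Yd g β w) :
    ∀ (hβ : β ∈ items g) (p q : A.Q) (m : Fin K → ℕ), Rd A p w q m →
      Tr (sysS g A) (p, ⟨β, hβ⟩, q) m := by
  induction h with
  | nil =>
    intro hβ p q m hr
    cases hr
    exact Tr.leaf (S := sysS g A) (p, ⟨[], hβ⟩, p) (Or.inl ⟨rfl, rfl⟩)
  | term x β w _ ih =>
    intro hβ p q m hr
    cases hr with
    | cons _ _ r _ _ n hs hr' =>
      have h1 := ih (items_tail g hβ) r q n hr'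
      have h2 := Tr.leaf (S := sysS g A) (p, ⟨[Symbol.terminal x], items_head g hβ⟩, r)
        (Or.inr ⟨x, rfl, hs⟩)
      exact Tr.node (S := sysS g A) (p, ⟨Symbol.terminal x :: β, hβ⟩, q)
        (p, ⟨[Symbol.terminal x], items_head g hβ⟩, r) (r, ⟨β, items_tail g hβ⟩, q) _ _
        ⟨rfl, rfl, rfl, Symbol.terminal x, rfl, Or.inl ⟨x, rfl, rfl⟩⟩ h2 h1
  | nonterm r β u w hr _ _ ih1 ih2 =>
    intro hβ p q m hrd
    obtain ⟨q', m₁, m₂, h1, h2, rfl⟩ := Rd.split _ _ _ _ _ hrd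
    have h3 := ih1 (items_rule g hr) p q' m₁ h1
    have h4 := ih2 (items_tail g hβ) q' q m₂ h2
    exact Tr.node (S := sysS g A) (p, ⟨Symbol.nonterminal r.input :: β, hβ⟩, q)
      (p, ⟨r.output, items_rule g hr⟩, q') (q', ⟨β, items_tail g hβ⟩, q) _ _
      ⟨rfl, rfl, rfl, Symbol.nonterminal r.input, rfl, Or.inr ⟨r, hr, rfl, rfl⟩⟩ h3 h4

end sys

/-- **M2 (grammar and automaton to a tree system).** -/
theorem M2_holds : TargetM2 := by
  intro T g K A p q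
  refine ⟨sysS g A, (p, ⟨[Symbol.nonterminal g.initial], items_init g⟩, q), fun n => ⟨?_, ?_⟩⟩
  · intro h
    obtain ⟨w, h1, h2⟩ := sysS_sound g A h
    exact ⟨w, (M2a_holds T g _ w).1 h1, h2⟩
  · rintro ⟨w, h1, h2⟩
    exact sysS_complete g A ((M2a_holds T g _ w).2 h1) _ p q n h2

end Pool.Agent.H5.CF
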