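import Pool.Agent.H5.CF.Targets

set_option autoImplicit false

/-!
# MP_268cdb_al, module M2a: yields and derivations of a context-free grammar
-/

namespace Pool.Agent.H5.CF

section yd

variable {T : Type} {g : ContextFreeGrammar T}

lemma Yd.append {α β : List (Symbol T g.NT)} {u w : List T} (h : Yd g α u) (h' : Yd g β w) :
    Yd g (α ++ β) (u ++ w) := by
  induction h with
  | nil => simpa using h'
  | term x β' w' _ ih => exact Yd.term x _ _ ih
  | nonterm r β' u' w' hr h1 _ _ ih2 =>
    rw [List.append_assoc]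
    exact Yd.nonterm r _ _ _ hr h1 ih2

lemma Yd.split (α : List (Symbol T g.NT)) : ∀ (β : List (Symbol T g.NT)) (w : List T),
    Yd g (α ++ β) w → ∃ u v, w = u ++ v ∧ Yd g α u ∧ Yd g β v := by
  induction α with
  | nil => intro β w h; exact ⟨[], w, rfl, Yd.nil, h⟩
  | cons s α ih =>
    intro β w h
    rw [List.cons_append] at h
    cases h with
    | term x _ w' h' =>
      obtain ⟨u, v, rfl, h1, h2⟩ := ih β w' h'
      exact ⟨x :: u, v, rfl, Yd.term x _ _ h1, h2⟩
    | nonterm r _ u' w' hr h1 h2 =>
      obtain ⟨u, v, rfl, h3, h4⟩ := ih β w' h2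
      exact ⟨u' ++ u, v, by rw [List.append_assoc], Yd.nonterm r _ _ _ hr h1 h3, h4⟩

lemma Yd.terminals (w : List T) : Yd g (w.map Symbol.terminal) w := by
  induction w with
  | nil => exact Yd.nil
  | cons x w ih => exact Yd.term x _ _ ih

lemma Yd.derives {β : List (Symbol T g.NT)} {w : List T} (h : Yd g β w) :
    g.Derives β (w.map Symbol.terminal) := by
  induction h with
  | nil => exact ContextFreeGrammar.Derives.refl _
  | term x β' w' _ ih =>
    have := ih.append_left [Symbol.terminal x]
    simpa using this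
  | nonterm r β' u' w' hr _ _ ih1 ih2 =>
    have h0 : g.Produces (Symbol.nonterminal r.input :: β') (r.output ++ β') :=
      ⟨r, hr, ContextFreeRule.Rewrites.head β'⟩
    have h1 := ih1.append_right β'
    have h2 := ih2.append_left (u'.map Symbol.terminal)
    rw [List.map_append]
    exact h0.trans_derives (h1.trans h2)

lemma Yd.of_produces {β β' : List (Symbol T g.NT)} {w : List T} (h : g.Produces β β')
    (h' : Yd g β' w) : Yd g β w := by
  obtain ⟨r, hr, hrw⟩ := h
  obtain ⟨p, q, rfl, rfl⟩ := hrw.exists_parts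
  obtain ⟨u, v, rfl, h1, h2⟩ := Yd.split _ _ _ h'
  obtain ⟨u1, u2, rfl, h3, h4⟩ := Yd.split _ _ _ h1
  have h5 : Yd g ([Symbol.nonterminal r.input]) (u2 ++ []) := Yd.nonterm r [] u2 [] hr h4 Yd.nil
  rw [List.append_nil] at h5
  exact (h3.append h5).append h2

lemma Yd.of_derives {β : List (Symbol T g.NT)} {w : List T}
    (h : g.Derives β (w.map Symbol.terminal)) : Yd g β w := by
  induction h using Relation.ReflTransGen.head_induction_on with
  | refl => exact Yd.terminals w
  | head h1 _ ih => exact Yd.of_produces h1 ih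

end yd

/-- **M2a (yields and derivations).** -/
theorem M2a_holds : TargetM2a := fun _ _ _ _ => ⟨Yd.derives, Yd.of_derives⟩

end Pool.Agent.H5.CF
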