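import Pool.Agent.H5.CF.Targets

set_option autoImplicit false

/-!
# MP_268cdb_al, module M3: the automaton of the pattern `v₁^{n₁} ⋯ v_K^{n_K}`

A state `(i, ρ)` says that we are in the block `i` and that `ρ` (a suffix of `v i`) remains to be read of
the current copy of `v i`.
-/

namespace Pool.Agent.H5.CF

section pat

variable {T : Type}

lemma pat_succ {K : ℕ} (v : Fin (K + 1) → List T) (n : Fin (K + 1) → ℕ) :
    pat v n = (List.replicate (n 0) (v 0)).flatten ++
      pat (fun i => v i.succ) (fun i => n i.succ) := by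
  unfold pat
  rw [List.ofFn_succ, List.flatten_cons]

lemma pat_zero {K : ℕ} (v : Fin K → List T) : pat v 0 = [] := by
  induction K with
  | zero => simp [pat]
  | succ K ih =>
    rw [pat_succ]
    have := ih (fun i => v i.succ)
    have h2 : (fun i : Fin K => (0 : Fin (K + 1) → ℕ) i.succ) = 0 := rfl
    rw [h2, this]
    simp

lemma pat_single {K : ℕ} (v : Fin K → List T) (j : Fin K) (n : Fin K → ℕ)
    (hn : ∀ k < j, n k = 0) : pat v (Pi.single j 1 + n) = v j ++ pat v n := by
  induction K with
  | zero => exact j.elim0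
  | succ K ih =>
    rw [pat_succ, pat_succ v n]
    refine Fin.cases ?_ (fun j => ?_) j (motive := fun j => (∀ k < j, n k = 0) →
      (List.replicate ((Pi.single j 1 + n : Fin (K + 1) → ℕ) 0) (v 0)).flatten ++
        pat (fun i => v i.succ) (fun i => (Pi.single j 1 + n : Fin (K + 1) → ℕ) i.succ) =
      v j ++ ((List.replicate (n 0) (v 0)).flatten ++
        pat (fun i => v i.succ) (fun i => n i.succ))) hn
    · intro _
      have h1 : (Pi.single 0 1 + n : Fin (K + 1) → ℕ) 0 = n 0 + 1 := by
        simp [add_comm]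
      have h2 : (fun i : Fin K => (Pi.single 0 1 + n : Fin (K + 1) → ℕ) i.succ) =
          fun i => n i.succ := by
        funext i
        simp
      rw [h1, h2, List.replicate_succ, List.flatten_cons, List.append_assoc]
    · intro hn
      have h0 : n 0 = 0 := hn 0 (Fin.succ_pos j)
      have h1 : (Pi.single j.succ 1 + n : Fin (K + 1) → ℕ) 0 = 0 := by
        simp [h0]
      have h2 : (fun i : Fin K => (Pi.single j.succ 1 + n : Fin (K + 1) → ℕ) i.succ) =
          Pi.single j 1 + fun i => n i.succ := by
        funext i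
        simp only [Pi.add_apply, Pi.single_apply, Fin.succ_inj]
      rw [h1, h2, h0, ih (fun i => v i.succ) j (fun i => n i.succ)
        (fun k hk => hn _ (Fin.succ_lt_succ_iff.2 hk))]
      simp

lemma exists_first {K : ℕ} {n : Fin K → ℕ} (h : n ≠ 0) :
    ∃ (j : Fin K) (n' : Fin K → ℕ), n = Pi.single j 1 + n' ∧ (∀ k < j, n' k = 0) ∧ n j ≠ 0 := by
  have hex : {j | n j ≠ 0}.Nonempty := by
    by_contra hc
    rw [Set.not_nonempty_iff_eq_empty] at hc
    apply h
    funext j
    by_contra hj
    have : j ∈ {j | n j ≠ 0} := hj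
    rw [hc] at this
    exact this
  obtain ⟨j, hj, hmin⟩ := WellFounded.has_min (wellFounded_lt : WellFounded ((· < ·) : Fin K → Fin K → Prop)) _ hex
  have hj' : n j ≠ 0 := hj
  have hlt : ∀ k < j, n k = 0 := by
    intro k hk
    by_contra hc
    exact hmin k hc hk
  refine ⟨j, n - Pi.single j 1, ?_, fun k hk => ?_, hj⟩
  · funext k
    by_cases hk : k = j
    · subst hk
      simp only [Pi.add_apply, Pi.sub_apply, Pi.single_eq_same]
      omega
    · simp [hk]
  · simp only [Pi.sub_apply, hlt k hk]
    omega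

end pat

section aut

variable {T : Type} {K : ℕ} (v : Fin K → List T)

/-- states -/
abbrev QP : Type := {p : Fin K × List T // p.2 <:+ v p.1}

lemma QP_finite : Finite (QP v) := by
  have : {p : Fin K × List T | p.2 <:+ v p.1} ⊆
      ⋃ i : Fin K, (fun ρ => (i, ρ)) '' {ρ | ρ ∈ (v i).tails} := by
    rintro ⟨i, ρ⟩ h
    simp only [Set.mem_iUnion]
    exact ⟨i, ρ, by simpa using h, rfl⟩
  have hf : {p : Fin K × List T | p.2 <:+ v p.1}.Finite :=
    Set.Finite.subset (Set.finite_iUnion fun i => (List.finite_toSet _).image _) this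
  exact hf.to_subtype

open Classical in
/-- The automaton of the pattern. -/
noncomputable def autP : Aut T K where
  Q := QP v
  fin := QP_finite v
  step := fun p x q => (p.1.1 = q.1.1 ∧ p.1.2 = x :: q.1.2) ∨
    (p.1.2 = [] ∧ p.1.1 ≤ q.1.1 ∧ v q.1.1 = x :: q.1.2)
  out := fun p _ q => if p.1.2 = [] then Pi.single q.1.1 1 else 0
  blk := fun p => p.1.1
  mono := by
    rintro p x q (⟨h, _⟩ | ⟨_, h, _⟩)
    · rw [h]
    · exact h
  supp := by
    intro p x q hs i hi
    by_cases h : p.1.2 = []
    · rw [if_pos h] at hi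
      have hi' : i = q.1.1 := by
        by_contra hne
        exact hi (by simp [hne])
      subst hi'
      rcases hs with ⟨h1, h2⟩ | ⟨_, h1, _⟩
      · rw [h] at h2
        exact absurd h2 (by simp)
      · exact ⟨h1, le_refl _⟩
    · rw [if_neg h] at hi
      exact absurd rfl hi

/-- final states -/
def finP : Set (autP v).Q := {q : QP v | q.1.2 = []}

lemma autP_sound {p q : (autP v).Q} {w : List T} {n : Fin K → ℕ} (h : Rd (autP v) p w q n)
    (hq : q ∈ finP v) :
    (∀ k, k < (p : QP v).1.1 → n k = 0) ∧ w = (p : QP v).1.2 ++ pat v n := by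
  induction h with
  | nil p =>
    refine ⟨fun k _ => rfl, ?_⟩
    have : (p : QP v).1.2 = [] := hq
    rw [this, pat_zero]
    rfl
  | cons p x q' w' r n' hs _ ih =>
    obtain ⟨ih1, ih2⟩ := ih hq
    by_cases h : (p : QP v).1.2 = []
    · have hout : (autP v).out p x q' = Pi.single (q' : QP v).1.1 1 := by
        show (if (p : QP v).1.2 = [] then _ else _) = _
        rw [if_pos h]
      rw [hout]
      rcases hs with ⟨h1, h2⟩ | ⟨_, h1, h2⟩
      · rw [h] at h2
        exact absurd h2 (by simp)
      · refine ⟨fun k hk => ?_, ?_⟩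
        · have hk' : k < (q' : QP v).1.1 := lt_of_lt_of_le hk h1
          rw [Pi.add_apply, ih1 k hk', Pi.single_apply, if_neg (ne_of_lt hk')]
        · rw [pat_single v _ _ ih1, h2, ih2, h]
          simp
    · have hout : (autP v).out p x q' = 0 := by
        show (if (p : QP v).1.2 = [] then _ else _) = _
        rw [if_neg h]
      rw [hout, zero_add]
      rcases hs with ⟨h1, h2⟩ | ⟨h1, _⟩
      · refine ⟨fun k hk => ih1 k (by rw [← h1]; exact hk), ?_⟩
        rw [h2, ih2]
        simp
      · exact absurd h1 h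

lemma autP_complete (hv : ∀ i, v i ≠ []) (N : ℕ) : ∀ (p : QP v) (w : List T) (n : Fin K → ℕ),
    w.length ≤ N → (∀ k, k < p.1.1 → n k = 0) → w = p.1.2 ++ pat v n →
      ∃ q ∈ finP v, Rd (autP v) p w q n := by
  induction N with
  | zero =>
    intro p w n hw hn he
    have hw0 : w = [] := by
      apply List.eq_nil_of_length_eq_zero
      omega
    rw [hw0] at he
    have h1 : p.1.2 = [] := (List.append_eq_nil_iff.1 he.symm).1
    have h2 : pat v n = [] := (List.append_eq_nil_iff.1 he.symm).2
    have hn0 : n = 0 := by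
      by_contra hne
      obtain ⟨j, n', rfl, hn', _⟩ := exists_first hne
      rw [pat_single v j _ hn'] at h2
      exact hv j (List.append_eq_nil_iff.1 h2).1
    subst hw0 hn0
    exact ⟨p, h1, Rd.nil (A := autP v) p⟩
  | succ N ih =>
    rintro ⟨⟨i, ρ⟩, hp⟩ w n hw hn he
    simp only at hn he hp
    cases ρ with
    | cons x σ =>
      rw [List.cons_append] at he
      subst he
      obtain ⟨q, hq, hr⟩ := ih ⟨(i, σ), (List.suffix_cons x σ).trans hp⟩ (σ ++ pat v n) n
        (by simpa using hw) hn rfl
      refine ⟨q, hq, ?_⟩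
      have := Rd.cons (A := autP v) (⟨(i, x :: σ), hp⟩ : QP v) x
        (⟨(i, σ), (List.suffix_cons x σ).trans hp⟩ : QP v) _ q n (Or.inl ⟨rfl, rfl⟩) hr
      have hout : (autP v).out (⟨(i, x :: σ), hp⟩ : QP v) x
        (⟨(i, σ), (List.suffix_cons x σ).trans hp⟩ : QP v) = 0 := by
        show (if x :: σ = [] then (Pi.single i 1 : Fin K → ℕ) else 0) = 0
        rw [if_neg (by simp)]
      rw [hout, zero_add] at this
      exact this
    | nil =>
      rw [List.nil_append] at he
      by_cases hn0 : n = 0
      · subst hn0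
        rw [pat_zero] at he
        subst he
        exact ⟨⟨(i, []), hp⟩, rfl, Rd.nil _⟩
      · obtain ⟨j, n', rfl, hn', hj⟩ := exists_first hn0
        have hij : i ≤ j := by
          by_contra hc
          exact hj (hn j (not_le.1 hc))
        rw [pat_single v j _ hn'] at he
        obtain ⟨x, σ, hxs⟩ := List.exists_cons_of_ne_nil (hv j)
        have hσ : σ <:+ v j := by
          rw [hxs]
          exact List.suffix_cons x σ
        rw [hxs, List.cons_append] at he
        subst he
        obtain ⟨q, hq, hr⟩ := ih ⟨(j, σ), hσ⟩ (σ ++ pat v n') n'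
          (by simpa using hw) hn' rfl
        refine ⟨q, hq, ?_⟩
        have := Rd.cons (A := autP v) (⟨(i, []), hp⟩ : QP v) x
          (⟨(j, σ), hσ⟩ : QP v) _ q n' (Or.inr ⟨rfl, hij, hxs⟩) hr
        have hout : (autP v).out (⟨(i, []), hp⟩ : QP v) x (⟨(j, σ), hσ⟩ : QP v) =
            Pi.single j 1 := by
          show (if ([] : List T) = [] then (Pi.single j 1 : Fin K → ℕ) else 0) = Pi.single j 1
          rw [if_pos rfl]
        rw [hout] at this
        exact this

end aut

lemma rd_nostep {T : Type} {K : ℕ} {A : Aut T K} (hA : ∀ p x q, ¬ A.step p x q) {p q : A.Q}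
    {w : List T} {n : Fin K → ℕ} (h : Rd A p w q n) : w = [] := by
  cases h with
  | nil => rfl
  | cons _ _ _ _ _ _ hs _ => exact absurd hs (hA _ _ _)

/-- **M3 (automaton of the pattern).** -/
theorem M3_holds : TargetM3 := by
  intro T K v hv
  cases K with
  | zero =>
    refine ⟨⟨Unit, inferInstance, fun _ _ _ => False, fun _ _ _ => 0, fun _ => 0,
      fun _ _ _ h => h.elim, fun _ _ _ h => h.elim⟩, (), Set.univ, fun w n => ⟨fun h => ?_, ?_⟩⟩
    · have : w = [] := by rw [h]; simp [pat]
      subst this
      refine ⟨(), trivial, ?_⟩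
      have hn : n = 0 := Subsingleton.elim _ _
      subst hn
      exact Rd.nil _
    · rintro ⟨q, _, h⟩
      have := rd_nostep (fun _ _ _ h => h) h
      rw [this]
      simp [pat]
  | succ K =>
    refine ⟨autP v, (⟨(0, []), List.nil_suffix⟩ : QP v), finP v, fun w n => ⟨fun h => ?_, ?_⟩⟩
    · exact autP_complete v hv w.length ⟨(0, []), List.nil_suffix⟩ w n le_rfl
        (fun k hk => absurd hk (Fin.not_lt_zero k)) h
    · rintro ⟨q, hq, h⟩
      have := (autP_sound v h hq).2
      simpa using this

end Pool.Agent.H5.CF
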